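import Pool.Agent.Helper7.OV.Goals1

/-!
# Project OV, packet DER: D1 and D2 are derivations
-/

set_option autoImplicit false

open Finset

namespace Pool.Agent.Helper43.OV.DER

open Pool.Agent.Helper7.OV
open scoped Polynomial

theorem D1_coeff (F : P2) (j : ℕ) :
    (D1 F).coeff j = Polynomial.X * Polynomial.derivative (F.coeff j) := by
  unfold D1
  rw [Polynomial.finsetSum_coeff]
  simp only [Polynomial.coeff_monomial]
  rw [Finset.sum_ite_eq']
  split_ifs with h
  · rfl
  · rw [Finset.mem_range, not_lt] at h
    rw [Polynomial.coeff_eq_zero_of_natDegree_lt (by omega)]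
    simp

theorem D1_mul (F G : P2) : D1 (F * G) = D1 F * G + F * D1 G := by
  ext1 j
  rw [D1_coeff, Polynomial.coeff_add, Polynomial.coeff_mul, Polynomial.coeff_mul,
    Polynomial.coeff_mul, Polynomial.derivative_sum, Finset.mul_sum, ← Finset.sum_add_distrib]
  refine Finset.sum_congr rfl fun x _ => ?_
  rw [D1_coeff, D1_coeff, Polynomial.derivative_mul]
  ring

theorem D1_C (f : Polynomial ℤ) : D1 (Polynomial.C f) =
    Polynomial.C (Polynomial.X * Polynomial.derivative f) := by
  ext1 j
  rw [D1_coeff, Polynomial.coeff_C, Polynomial.coeff_C]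
  split_ifs <;> simp

theorem t : S_DER := by
  refine ⟨?_, ?_, ?_, ⟨?_, ?_, ?_, ?_⟩, ?_, ?_, ?_, ?_⟩
  · intro F G
    constructor
    · ext1 j
      rw [D1_coeff, Polynomial.coeff_add, Polynomial.coeff_add, D1_coeff, D1_coeff,
        Polynomial.derivative_add, mul_add]
    · unfold D2
      rw [Polynomial.derivative_add, mul_add]
  · intro F
    constructor
    · ext1 j
      rw [D1_coeff, Polynomial.coeff_neg, Polynomial.coeff_neg, D1_coeff,
        Polynomial.derivative_neg, mul_neg]
    · unfold D2
      rw [Polynomial.derivative_neg]
      ring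
  · intro F G
    refine ⟨D1_mul F G, ?_⟩
    unfold D2
    rw [Polynomial.derivative_mul]
    ring
  · unfold XX
    rw [D1_C]
    simp
  · unfold YY
    ext1 j
    rw [D1_coeff, Polynomial.coeff_X]
    split_ifs <;> simp
  · unfold XX D2
    simp
  · unfold YY D2
    simp
  · intro n
    constructor
    · rw [D1_C]
      simp
    · unfold D2
      simp
  · intro F i j
    constructor
    · unfold co
      rw [D1_coeff]
      cases i with
      | zero => simp
      | succ i =>
        rw [Polynomial.coeff_X_mul, Polynomial.coeff_derivative]
        push_cast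
        ring
    · unfold co D2
      cases j with
      | zero => simp
      | succ j =>
        rw [Polynomial.coeff_X_mul, Polynomial.coeff_derivative]
        have : ((j : Polynomial ℤ) + 1) = Polynomial.C ((j : ℤ) + 1) := by
          simp
        rw [this, Polynomial.coeff_mul_C]
        push_cast
        ring
  · intro F x y
    unfold ev D2
    simp [Polynomial.evalEval]
  · intro f
    refine ⟨D1_C f, ?_⟩
    unfold D2
    simp

end Pool.Agent.Helper43.OV.DER
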